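import Pool.Agent.H25.Multi

open Finset Filter Topology Pool.Agent.H25.Multi

namespace Pool.Agent.Results.MP_155ab0_nt.Zero

theorem result : Tendsto (fun n : ℕ => Real.log (M n) / √n) atTop (𝓝 0) ∧
    ¬∃ C : ℝ, 0 < C ∧ Tendsto (fun n : ℕ => Real.log (M n) / √n) atTop (𝓝 C) := by
  have h : Tendsto (fun n : ℕ => Real.log (M n) / √n) atTop (𝓝 0) := by
    refine tendsto_order.2 ⟨fun a ha => .of_forall fun n => ha.trans_le (by positivity),
      fun a ha => ?_⟩
    filter_upwards [small (half_pos ha), eventually_gt_atTop 0] with n h hn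
    have s : 0 < √n := Real.sqrt_pos.2 (by exact_mod_cast hn)
    have : Real.log (M n) ≤ a / 2 * √n := by
      rcases (M n).eq_zero_or_pos with e | e
      · rw [e, Nat.cast_zero, Real.log_zero]; positivity
      · exact (Real.log_le_iff_le_exp (by exact_mod_cast e)).2 h
    rw [div_lt_iff₀ s]
    nlinarith
  exact ⟨h, fun ⟨C, h0, hC⟩ => h0.ne (tendsto_nhds_unique h hC)⟩

end Pool.Agent.Results.MP_155ab0_nt.Zero
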